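import Pool.Agent.H79.QN.Stmts

/-!
# Board `qn`, row `ARC`: lattice points in a thick short arc
-/

set_option autoImplicit false

namespace Pool.Agent.H79.QN
namespace ARCp

open Finset

lemma cs (v w : ℤ × ℤ) : (nsq v : ℝ) * nsq w = (dot v w : ℝ) ^ 2 + (crs v w : ℝ) ^ 2 := by
  simp only [nsq, dot, crs]; push_cast; ring

lemma nsq_nn (v : ℤ × ℤ) : (0 : ℝ) ≤ nsq v := by
  simp only [nsq]; push_cast; positivity

/-- `|crs z₀ z| ≤ r l` -/
lemma crs_le {z₀ : ℤ × ℤ} {r K l : ℝ} (hA : AH z₀ r K l) {z : ℤ × ℤ} (hz : Mem z₀ K l z) :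
    |(crs z₀ z : ℝ)| ≤ r * l := by
  have h0 : (crs z₀ z : ℝ) = crs z₀ (z - z₀) := by
    simp only [crs, Prod.fst_sub, Prod.snd_sub]; push_cast; ring
  have h1 := cs z₀ (z - z₀)
  have h2 : (crs z₀ z : ℝ) ^ 2 ≤ (r * l) ^ 2 := by
    rw [h0, mul_pow, hA.rsq]
    have := mul_le_mul_of_nonneg_left hz.a (nsq_nn z₀)
    nlinarith [sq_nonneg (dot z₀ (z - z₀) : ℝ)]
  have h3 : 0 ≤ r * l := mul_nonneg (by linarith [hA.r1]) (by linarith [hA.l1])
  exact abs_le_of_sq_le_sq h2 h3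

/-- `|dot z₀ d| ≤ |dot z d| + 2 l h` if `|d|² ≤ 4 h²` -/
lemma dot_le {z₀ : ℤ × ℤ} {r K l : ℝ} (hA : AH z₀ r K l) {z : ℤ × ℤ} (hz : Mem z₀ K l z)
    {d : ℤ × ℤ} {h : ℝ} (hh : 0 ≤ h) (hd : (nsq d : ℝ) ≤ 4 * h ^ 2) :
    |(dot z₀ d : ℝ)| ≤ |(dot z d : ℝ)| + 2 * l * h := by
  have h0 : (dot z₀ d : ℝ) = dot z d - dot (z - z₀) d := by
    simp only [dot, Prod.fst_sub, Prod.snd_sub]; push_cast; ring
  have h1 := cs (z - z₀) d
  have hl : 0 ≤ l := by linarith [hA.l1]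
  have h2 : (dot (z - z₀) d : ℝ) ^ 2 ≤ (2 * l * h) ^ 2 := by
    have e1 : (nsq (z - z₀) : ℝ) * nsq d ≤ l ^ 2 * (4 * h ^ 2) :=
      mul_le_mul hz.a hd (nsq_nn d) (by positivity)
    nlinarith [sq_nonneg (crs (z - z₀) d : ℝ)]
  have h3 : |(dot (z - z₀) d : ℝ)| ≤ 2 * l * h := abs_le_of_sq_le_sq h2 (by positivity)
  rw [h0]
  have := abs_sub (dot z d : ℝ) (dot (z - z₀) d : ℝ)
  linarith

/-- facts on `H = r ^ (1 / 3)` -/
lemma Hfacts {z₀ : ℤ × ℤ} {r K l : ℝ} (hA : AH z₀ r K l) :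
    0 < r ^ (1 / 3 : ℝ) ∧ r ^ (2 / 3 : ℝ) = (r ^ (1 / 3 : ℝ)) ^ 2 ∧ r = (r ^ (1 / 3 : ℝ)) ^ 3 ∧
      30 ≤ r ^ (1 / 3 : ℝ) := by
  have hr : 0 < r := by linarith [hA.r1]
  have h1 : 0 < r ^ (1 / 3 : ℝ) := Real.rpow_pos_of_pos hr _
  have h2 : r ^ (2 / 3 : ℝ) = (r ^ (1 / 3 : ℝ)) ^ 2 := by
    rw [← Real.rpow_natCast, ← Real.rpow_mul hr.le]; norm_num
  have h3 : r = (r ^ (1 / 3 : ℝ)) ^ 3 := by
    rw [← Real.rpow_natCast, ← Real.rpow_mul hr.le]; norm_num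
  refine ⟨h1, h2, h3, ?_⟩
  have := hA.Kr
  rw [h2] at this
  nlinarith [hA.K1]

/-- number of windows -/
lemma windows {z₀ : ℤ × ℤ} {r K l : ℝ} (hA : AH z₀ r K l) (S : Finset (ℤ × ℤ))
    (hS : ∀ z ∈ S, Mem z₀ K l z) :
    ((S.image (win z₀ r)).card : ℝ) ≤ 2 + 4 * (l / r ^ (1 / 3 : ℝ)) := by
  obtain ⟨hH, -, -, -⟩ := Hfacts hA
  set H := r ^ (1 / 3 : ℝ) with hHd
  have hr : 0 < r := by linarith [hA.r1]
  have hl : 0 < l := by linarith [hA.l1]
  have hsub : S.image (win z₀ r) ⊆ Finset.Icc ⌊-(2 * (l / H))⌋ ⌊2 * (l / H)⌋ := by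
    intro k hk
    obtain ⟨z, hz, rfl⟩ := Finset.mem_image.1 hk
    have h1 := crs_le hA (hS z hz)
    have h2 : |(crs z₀ z : ℝ) / (r * (H / 2))| ≤ 2 * (l / H) := by
      rw [abs_div, abs_of_pos (show (0 : ℝ) < r * (H / 2) by positivity), div_le_iff₀ (by positivity)]
      calc |(crs z₀ z : ℝ)| ≤ r * l := h1
        _ = 2 * (l / H) * (r * (H / 2)) := by field_simp
    rw [abs_le] at h2
    rw [Finset.mem_Icc]
    exact ⟨Int.floor_le_floor h2.1, Int.floor_le_floor h2.2⟩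
  have h1 := Finset.card_le_card hsub
  rw [Int.card_Icc] at h1
  have h2 : ((⌊2 * (l / H)⌋ + 1 - ⌊-(2 * (l / H))⌋).toNat : ℝ) ≤ 2 + 4 * (l / H) := by
    have h0 : ⌊-(2 * (l / H))⌋ ≤ ⌊2 * (l / H)⌋ := by
      apply Int.floor_le_floor
      have : 0 < l / H := by positivity
      linarith
    have e : (((⌊2 * (l / H)⌋ + 1 - ⌊-(2 * (l / H))⌋).toNat : ℤ) : ℝ) =
        ((⌊2 * (l / H)⌋ + 1 - ⌊-(2 * (l / H))⌋ : ℤ) : ℝ) := by
      congr 1
      exact Int.toNat_of_nonneg (by linarith)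
    have e2 : ((⌊2 * (l / H)⌋ + 1 - ⌊-(2 * (l / H))⌋).toNat : ℝ) =
        ((⌊2 * (l / H)⌋ + 1 - ⌊-(2 * (l / H))⌋ : ℤ) : ℝ) := by
      rw [← e]; norm_cast
    rw [e2]
    push_cast
    have f1 := Int.floor_le (2 * (l / H))
    have f2 := Int.lt_floor_add_one (-(2 * (l / H)))
    linarith
  calc ((S.image (win z₀ r)).card : ℝ) ≤ ((⌊2 * (l / H)⌋ + 1 - ⌊-(2 * (l / H))⌋).toNat : ℝ) := by
        exact_mod_cast h1
    _ ≤ _ := h2

/-- inside a window -/
lemma inwin {z₀ : ℤ × ℤ} {r K l : ℝ} (hA : AH z₀ r K l) {z z' : ℤ × ℤ}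
    (h : win z₀ r z = win z₀ r z') :
    |(crs z₀ (z - z') : ℝ)| ≤ r * (r ^ (1 / 3 : ℝ) / 2) := by
  obtain ⟨hH, -, -, -⟩ := Hfacts hA
  have hr : 0 < r := by linarith [hA.r1]
  have h0 : (crs z₀ (z - z') : ℝ) = crs z₀ z - crs z₀ z' := by
    simp only [crs, Prod.fst_sub, Prod.snd_sub]; push_cast; ring
  have h1 := Int.abs_sub_lt_one_of_floor_eq_floor h
  rw [← sub_div, abs_div, abs_of_pos (show (0 : ℝ) < r * (r ^ (1 / 3 : ℝ) / 2) by positivity),
    div_lt_one (by positivity)] at h1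
  rw [h0]; exact h1.le

/-- the windows of type `(a, b)` -/
lemma group (h7 : S_AC7) (h8 : S_AC8) {z₀ : ℤ × ℤ} {r K l : ℝ} (hA : AH z₀ r K l) (a b : ℕ)
    (T : Finset ℤ) (d : ℤ → ℤ × ℤ)
    (hT : ∀ k ∈ T, IsCoprime (d k).1 (d k).2 ∧ 0 < crs z₀ (d k) ∧ (4 : ℝ) ^ a ≤ nsq (d k) ∧
      (nsq (d k) : ℝ) < 4 * 4 ^ a ∧ (nsq (d k) : ℝ) ≤ r ^ (2 / 3 : ℝ) ∧
      (nsq (d k) : ℝ) * (2 ^ b) ^ 2 ≤ 72 * K ∧
      ∃ z, Mem z₀ K l z ∧ win z₀ r z = k ∧ |(dot z (d k) : ℝ)| * 2 ^ b ≤ 20 * K) :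
    (T.card : ℝ) * 2 ^ (b + 1) ≤ 100 * Real.sqrt K + 1000 * (l * Real.sqrt K / r ^ (2 / 3 : ℝ)) := by
  obtain ⟨hH, hH2, hH3, hH30⟩ := Hfacts hA
  have hr : 0 < r := by linarith [hA.r1]
  have hl : 0 < l := by linarith [hA.l1]
  have hK : 0 < K := by linarith [hA.K1]
  rcases T.eq_empty_or_nonempty with rfl | ⟨k₀, hk₀⟩
  · simp only [Finset.card_empty, Nat.cast_zero, zero_mul]; positivity
  set H := r ^ (1 / 3 : ℝ) with hHd
  set h : ℝ := 2 ^ a with hh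
  have h4 : (4 : ℝ) ^ a = h ^ 2 := by
    rw [hh, ← pow_mul, mul_comm, pow_mul]; norm_num
  rw [h4] at hT
  have hh1 : 1 ≤ h := one_le_pow₀ (by norm_num)
  have hb1 : (1 : ℝ) ≤ 2 ^ b := one_le_pow₀ (by norm_num)
  set β : ℝ := 2 ^ b with hβ
  obtain ⟨-, -, q1, -, q2, q3, -⟩ := hT k₀ hk₀
  have hhH : h ≤ H := by
    have : h ^ 2 ≤ H ^ 2 := by rw [← hH2]; linarith
    exact le_of_sq_le_sq this hH.le
  have hβh : β * h ≤ 9 * Real.sqrt K := by
    have e1 : (β * h) ^ 2 ≤ (9 * Real.sqrt K) ^ 2 := by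
      rw [mul_pow, mul_pow, Real.sq_sqrt hK.le]
      have : h ^ 2 * β ^ 2 ≤ (nsq (d k₀) : ℝ) * β ^ 2 :=
        mul_le_mul_of_nonneg_right q1 (by positivity)
      nlinarith
    exact le_of_sq_le_sq e1 (by positivity)
  have hβ0 : 0 < β := by linarith
  have hh0 : 0 < h := by linarith
  set B : ℝ := 20 * K / β with hB
  have hB0 : 0 ≤ B := by positivity
  have hB20 : B ≤ 20 * K := by
    rw [hB, div_le_iff₀ hβ0]
    nlinarith
  set D := T.image d with hD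
  have hDc : (D.card : ℝ) ≤ 2 + 20 * (l * h ^ 2 / r) := by
    refine h8 z₀ r K l h D hA hh1 hhH ?_
    intro e he
    obtain ⟨k, hk, rfl⟩ := Finset.mem_image.1 he
    obtain ⟨c1, c2, c3, c4, -, -, z, c5, -, c6⟩ := hT k hk
    refine ⟨c1, c2, c3, c4, ?_⟩
    have e1 := dot_le hA c5 hh0.le c4.le
    have e2 : |(dot z (d k) : ℝ)| ≤ 20 * K := by
      have : |(dot z (d k) : ℝ)| * 1 ≤ |(dot z (d k) : ℝ)| * β :=
        mul_le_mul_of_nonneg_left hb1 (abs_nonneg _)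
      linarith
    linarith
  set M : ℝ := 2 + 160 * K / (β * h * H) with hM
  have hfib : ∀ e ∈ D, ((T.filter (fun k => d k = e)).card : ℝ) ≤ M := by
    intro e he
    obtain ⟨k, hk, hke⟩ := Finset.mem_image.1 he
    obtain ⟨-, -, c3, -, -, -, -⟩ := hT k hk
    rw [hke] at c3
    have c3' : (1 : ℝ) ≤ nsq e := by
      have : (1 : ℝ) ≤ h ^ 2 := one_le_pow₀ hh1
      linarith
    have c4 : (1 : ℤ) ≤ nsq e := by exact_mod_cast c3'
    have e1 := h7 z₀ r K l B e (T.filter (fun k => d k = e)) hA c4 hB0 hB20 (by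
      intro k' hk'
      obtain ⟨hk1, hk2⟩ := Finset.mem_filter.1 hk'
      obtain ⟨-, -, -, -, -, -, z, g1, g2, g3⟩ := hT k' hk1
      refine ⟨z, g1, g2, ?_⟩
      rw [hk2] at g3
      rw [hB, le_div_iff₀ hβ0]; exact g3)
    have e2 : h ≤ Real.sqrt (nsq e) := Real.le_sqrt_of_sq_le c3
    have e3 : 8 * B / (Real.sqrt (nsq e) * H) ≤ 160 * K / (β * h * H) := by
      rw [hB, div_le_div_iff₀ (by positivity) (by positivity)]
      have : 8 * (20 * K / β) * (β * h * H) = 160 * K * (h * H) := by field_simp; ring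
      rw [this]
      have : h * H ≤ Real.sqrt (nsq e) * H := mul_le_mul_of_nonneg_right e2 hH.le
      exact mul_le_mul_of_nonneg_left this (by positivity)
    linarith
  have hTc : (T.card : ℝ) ≤ (2 + 20 * (l * h ^ 2 / r)) * M := by
    have e1 : T.card = ∑ e ∈ D, (T.filter (fun k => d k = e)).card :=
      Finset.card_eq_sum_card_image d T
    rw [e1]
    push_cast
    calc ∑ e ∈ D, ((T.filter (fun k => d k = e)).card : ℝ) ≤ ∑ e ∈ D, M := Finset.sum_le_sum hfib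
      _ = (D.card : ℝ) * M := by rw [Finset.sum_const, nsmul_eq_mul]
      _ ≤ (2 + 20 * (l * h ^ 2 / r)) * M := mul_le_mul_of_nonneg_right hDc (by positivity)
  have hKH : 31 * K ≤ Real.sqrt K * H := by
    have e0 : 31 * Real.sqrt K ≤ H := by
      have : (31 * Real.sqrt K) ^ 2 ≤ H ^ 2 := by
        rw [mul_pow, Real.sq_sqrt hK.le, ← hH2]
        have := hA.Kr
        linarith
      exact le_of_sq_le_sq this hH.le
    have e1 : K = Real.sqrt K * Real.sqrt K := (Real.mul_self_sqrt hK.le).symm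
    calc 31 * K = Real.sqrt K * (31 * Real.sqrt K) := by nlinarith
      _ ≤ Real.sqrt K * H := mul_le_mul_of_nonneg_left e0 (Real.sqrt_nonneg _)
  have hM2 : M * (2 * β) * h ≤ 50 * Real.sqrt K := by
    have e1 : M * (2 * β) * h = 4 * (β * h) + 320 * K / H := by
      rw [hM]; field_simp; ring
    have e2 : 320 * K / H ≤ 11 * Real.sqrt K := by
      rw [div_le_iff₀ hH]; nlinarith [Real.sqrt_nonneg K]
    rw [e1]; linarith [Real.sqrt_nonneg K]
  have hfin : (2 + 20 * (l * h ^ 2 / r)) * (M * (2 * β)) ≤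
      100 * Real.sqrt K + 1000 * (l * Real.sqrt K / H ^ 2) := by
    have e1 : M * (2 * β) ≤ 50 * Real.sqrt K / h := by
      rw [le_div_iff₀ hh0]; exact hM2
    have e2 : (2 + 20 * (l * h ^ 2 / r)) * (M * (2 * β)) ≤
        (2 + 20 * (l * h ^ 2 / r)) * (50 * Real.sqrt K / h) :=
      mul_le_mul_of_nonneg_left e1 (by positivity)
    have e3 : (2 + 20 * (l * h ^ 2 / r)) * (50 * Real.sqrt K / h) =
        100 * Real.sqrt K / h + 1000 * (l * Real.sqrt K * h / r) := by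
      field_simp; ring
    have e4 : 100 * Real.sqrt K / h ≤ 100 * Real.sqrt K := by
      rw [div_le_iff₀ hh0]
      nlinarith [Real.sqrt_nonneg K]
    have e5 : l * Real.sqrt K * h / r ≤ l * Real.sqrt K / H ^ 2 := by
      rw [div_le_div_iff₀ hr (by positivity)]
      have : h * H ^ 2 ≤ r := by
        calc h * H ^ 2 ≤ H * H ^ 2 := mul_le_mul_of_nonneg_right hhH (by positivity)
          _ = H ^ 3 := by ring
          _ = r := hH3.symm
      calc l * Real.sqrt K * h * H ^ 2 = (l * Real.sqrt K) * (h * H ^ 2) := by ring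
        _ ≤ (l * Real.sqrt K) * r := mul_le_mul_of_nonneg_left this (by positivity)
    linarith
  rw [hH2, pow_succ, mul_comm (2 ^ b) (2 : ℝ), ← hβ]
  calc (T.card : ℝ) * (2 * β) ≤ (2 + 20 * (l * h ^ 2 / r)) * M * (2 * β) :=
        mul_le_mul_of_nonneg_right hTc (by positivity)
    _ = (2 + 20 * (l * h ^ 2 / r)) * (M * (2 * β)) := by ring
    _ ≤ _ := hfin

/-- choice of the direction of a window -/
lemma choice (h5 : S_AC5) {z₀ : ℤ × ℤ} {r K l : ℝ} (hA : AH z₀ r K l) (S : Finset (ℤ × ℤ))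
    (hS : ∀ z ∈ S, Mem z₀ K l z) (k : ℤ) :
    ∃ d : ℤ × ℤ, 3 ≤ (S.filter (fun z => win z₀ r z = k)).card →
      IsCoprime d.1 d.2 ∧ 0 < crs z₀ d ∧
      (nsq d : ℝ) * ((S.filter (fun z => win z₀ r z = k)).card : ℝ) ^ 2 ≤ 72 * K ∧
      (nsq d : ℝ) ≤ r ^ (2 / 3 : ℝ) ∧
      ∀ z ∈ S.filter (fun z => win z₀ r z = k),
        |(dot z d : ℝ)| * (S.filter (fun z => win z₀ r z = k)).card ≤ 20 * K := by
  by_cases h3 : 3 ≤ (S.filter (fun z => win z₀ r z = k)).card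
  · obtain ⟨d, hd⟩ := h5 z₀ r K l (S.filter (fun z => win z₀ r z = k)) hA
      (fun z hz => hS z (Finset.mem_filter.1 hz).1) h3
      (fun z hz z' hz' => inwin hA (by
        rw [(Finset.mem_filter.1 hz).2, (Finset.mem_filter.1 hz').2]))
    exact ⟨d, fun _ => hd⟩
  · exact ⟨(0, 0), fun h => absurd h h3⟩

end ARCp

open Finset ARCp in
/-- row ARC -/
theorem arc (h5 : S_AC5) (h7 : S_AC7) (h8 : S_AC8) : S_ARC := by
  classical
  refine ⟨1000, by norm_num, ?_⟩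
  intro z₀ r K l S hA hS
  obtain ⟨hH, hH2, hH3, hH30⟩ := Hfacts hA
  have hr : 0 < r := by linarith [hA.r1]
  have hl : 0 < l := by linarith [hA.l1]
  have hK : 0 < K := by linarith [hA.K1]
  have hlog : 0 ≤ Real.log r := Real.log_nonneg hA.r1
  choose d hd using choice h5 hA S hS
  set W : ℤ → Finset (ℤ × ℤ) := fun k => S.filter (fun z => win z₀ r z = k) with hW
  set T := S.image (win z₀ r) with hT
  set T3 := T.filter (fun k => 3 ≤ (W k).card) with hT3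
  set ty : ℤ → ℕ × ℕ := fun k => (Nat.log 4 (nsq (d k)).toNat, Nat.log 2 (W k).card) with hty
  set M : ℕ := Nat.log 4 ⌊r ^ (2 / 3 : ℝ)⌋₊ with hM
  set Q : ℝ := 100 * Real.sqrt K + 1000 * (l * Real.sqrt K / r ^ (2 / 3 : ℝ)) with hQ
  have hQ0 : 0 ≤ Q := by positivity
  -- facts for one window
  have hone : ∀ k ∈ T3, (4 : ℝ) ^ (ty k).1 ≤ nsq (d k) ∧ (nsq (d k) : ℝ) < 4 * 4 ^ (ty k).1 ∧
      (2 : ℝ) ^ (ty k).2 ≤ (W k).card ∧ ((W k).card : ℝ) ≤ 2 ^ ((ty k).2 + 1) ∧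
      (nsq (d k) : ℝ) * (2 ^ (ty k).2) ^ 2 ≤ 72 * K ∧
      (ty k).1 ≤ M ∧ (ty k).2 ≤ M := by
    intro k hk
    have hk3 : 3 ≤ (W k).card := (Finset.mem_filter.1 hk).2
    obtain ⟨c1, c2, c3, c4, c5⟩ := hd k hk3
    have hn0 : 0 < nsq (d k) := by
      by_contra hn
      have h1 : (d k).1 ^ 2 + (d k).2 ^ 2 ≤ 0 := not_lt.1 hn
      have h2 : (d k).1 = 0 := by nlinarith [sq_nonneg (d k).1, sq_nonneg (d k).2]
      have h3 : (d k).2 = 0 := by nlinarith [sq_nonneg (d k).1, sq_nonneg (d k).2]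
      rw [crs, h2, h3] at c2
      simp at c2
    have hn1 : (((nsq (d k)).toNat : ℕ) : ℝ) = (nsq (d k) : ℝ) := by
      have : (((nsq (d k)).toNat : ℕ) : ℤ) = nsq (d k) := Int.toNat_of_nonneg hn0.le
      have h2 : ((((nsq (d k)).toNat : ℕ) : ℤ) : ℝ) = (nsq (d k) : ℝ) := by rw [this]
      rw [← h2]; norm_cast
    have hn2 : (nsq (d k)).toNat ≠ 0 := by omega
    have e1 : (4 : ℝ) ^ (ty k).1 ≤ nsq (d k) := by
      rw [← hn1]; exact_mod_cast Nat.pow_log_le_self 4 hn2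
    have e2 : (nsq (d k) : ℝ) < 4 * 4 ^ (ty k).1 := by
      rw [← hn1, mul_comm, ← pow_succ]
      exact_mod_cast Nat.lt_pow_succ_log_self (by norm_num : 1 < 4) _
    have e3 : (2 : ℝ) ^ (ty k).2 ≤ (W k).card := by
      exact_mod_cast Nat.pow_log_le_self 2 (by omega : (W k).card ≠ 0)
    have e4 : ((W k).card : ℝ) ≤ 2 ^ ((ty k).2 + 1) := by
      exact_mod_cast (Nat.lt_pow_succ_log_self (by norm_num : 1 < 2) (W k).card).le
    have e5 : (nsq (d k) : ℝ) * (2 ^ (ty k).2) ^ 2 ≤ 72 * K := by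
      refine le_trans ?_ c3
      exact mul_le_mul_of_nonneg_left (pow_le_pow_left₀ (by positivity) e3 2) (nsq_nn _)
    refine ⟨e1, e2, e3, e4, e5, ?_, ?_⟩
    · have g1 : (nsq (d k)).toNat ≤ ⌊r ^ (2 / 3 : ℝ)⌋₊ := by
        apply Nat.le_floor
        rw [hn1]; exact c4
      have g2 : Nat.log 4 (nsq (d k)).toNat ≤ Nat.log 4 ⌊r ^ (2 / 3 : ℝ)⌋₊ := Nat.log_mono_right g1
      exact g2
    · apply Nat.le_log_of_pow_le (by norm_num)
      apply Nat.le_floor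
      have f1 : (1 : ℝ) ≤ nsq (d k) := by exact_mod_cast hn0
      have f2 : ((4 ^ (ty k).2 : ℕ) : ℝ) = (2 ^ (ty k).2) ^ 2 := by
        push_cast
        rw [← pow_mul, mul_comm, pow_mul]; norm_num
      rw [f2]
      have f3 : (0 : ℝ) ≤ (2 ^ (ty k).2) ^ 2 := by positivity
      have f4 := hA.Kr
      nlinarith
  -- number of types
  have hM1 : (M : ℝ) ≤ Real.log r := by
    have f0 : ⌊r ^ (2 / 3 : ℝ)⌋₊ ≠ 0 := by
      have : 1 ≤ ⌊r ^ (2 / 3 : ℝ)⌋₊ := by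
        apply Nat.le_floor
        rw [hH2]; push_cast; nlinarith
      omega
    have f1 : (4 : ℝ) ^ M ≤ r ^ (2 / 3 : ℝ) := by
      refine le_trans ?_ (Nat.floor_le (by positivity))
      exact_mod_cast Nat.pow_log_le_self 4 f0
    have f2 := Real.log_le_log (by positivity) f1
    rw [Real.log_pow, Real.log_rpow hr] at f2
    have f3 : (1 : ℝ) ≤ Real.log 4 := by
      have : Real.log 4 = 2 * Real.log 2 := by
        rw [show (4 : ℝ) = 2 ^ 2 by norm_num, Real.log_pow]; push_cast; ring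
      rw [this]; linarith [Real.log_two_gt_d9]
    have f4 : (0 : ℝ) ≤ M := Nat.cast_nonneg M
    nlinarith
  -- the big windows
  have hbig : (∑ k ∈ T3, ((W k).card : ℝ)) ≤ (1 + Real.log r) ^ 2 * Q := by
    have hsub : T3.image ty ⊆ Finset.range (M + 1) ×ˢ Finset.range (M + 1) := by
      intro p hp
      obtain ⟨k, hk, rfl⟩ := Finset.mem_image.1 hp
      obtain ⟨-, -, -, -, -, g1, g2⟩ := hone k hk
      rw [Finset.mem_product, Finset.mem_range, Finset.mem_range]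
      exact ⟨by omega, by omega⟩
    have hc : ((T3.image ty).card : ℝ) ≤ (1 + Real.log r) ^ 2 := by
      have h1 := Finset.card_le_card hsub
      rw [Finset.card_product, Finset.card_range] at h1
      have h2 : ((T3.image ty).card : ℝ) ≤ ((M : ℝ) + 1) * ((M : ℝ) + 1) := by exact_mod_cast h1
      have f4 : (0 : ℝ) ≤ M := Nat.cast_nonneg M
      nlinarith
    have hs : (∑ k ∈ T3, ((W k).card : ℝ)) =
        ∑ p ∈ T3.image ty, ∑ k ∈ T3 with ty k = p, ((W k).card : ℝ) := by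
      rw [Finset.sum_fiberwise_of_maps_to (fun k hk => Finset.mem_image_of_mem ty hk)]
    rw [hs]
    calc ∑ p ∈ T3.image ty, ∑ k ∈ T3 with ty k = p, ((W k).card : ℝ)
        ≤ ∑ p ∈ T3.image ty, Q := by
          refine Finset.sum_le_sum fun p _ => ?_
          calc ∑ k ∈ T3 with ty k = p, ((W k).card : ℝ)
              ≤ ∑ k ∈ T3 with ty k = p, (2 : ℝ) ^ (p.2 + 1) := by
                refine Finset.sum_le_sum fun k hk => ?_
                obtain ⟨hk1, hk2⟩ := Finset.mem_filter.1 hk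
                rw [← hk2]
                exact (hone k hk1).2.2.2.1
            _ = ((T3.filter (fun k => ty k = p)).card : ℝ) * 2 ^ (p.2 + 1) := by
                rw [Finset.sum_const, nsmul_eq_mul]
            _ ≤ Q := by
                refine group h7 h8 hA p.1 p.2 _ d ?_
                intro k hk
                obtain ⟨hk1, hk2⟩ := Finset.mem_filter.1 hk
                have hk3 : 3 ≤ (W k).card := (Finset.mem_filter.1 hk1).2
                obtain ⟨c1, c2, c3, c4, c5⟩ := hd k hk3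
                obtain ⟨g1, g2, g3, g4, g5, -, -⟩ := hone k hk1
                rw [hk2] at g1 g2 g3 g4 g5
                refine ⟨c1, c2, g1, g2, c4, g5, ?_⟩
                obtain ⟨z, hz⟩ : (W k).Nonempty := by
                  rw [← Finset.card_pos]; omega
                refine ⟨z, hS z (Finset.mem_filter.1 hz).1, (Finset.mem_filter.1 hz).2, ?_⟩
                refine le_trans ?_ (c5 z hz)
                exact mul_le_mul_of_nonneg_left g3 (abs_nonneg _)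
      _ = ((T3.image ty).card : ℝ) * Q := by rw [Finset.sum_const, nsmul_eq_mul]
      _ ≤ (1 + Real.log r) ^ 2 * Q := mul_le_mul_of_nonneg_right hc hQ0
  -- the small windows
  have hsmall : (∑ k ∈ T with ¬ 3 ≤ (W k).card, ((W k).card : ℝ)) ≤ 2 * T.card := by
    calc (∑ k ∈ T with ¬ 3 ≤ (W k).card, ((W k).card : ℝ))
        ≤ ∑ k ∈ T with ¬ 3 ≤ (W k).card, (2 : ℝ) := by
          refine Finset.sum_le_sum fun k hk => ?_
          have : (W k).card ≤ 2 := by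
            have := (Finset.mem_filter.1 hk).2
            omega
          exact_mod_cast this
      _ = 2 * ((T.filter (fun k => ¬ 3 ≤ (W k).card)).card : ℝ) := by
          rw [Finset.sum_const, nsmul_eq_mul, mul_comm]
      _ ≤ 2 * T.card := by
          have : ((T.filter (fun k => ¬ 3 ≤ (W k).card)).card : ℝ) ≤ T.card := by
            exact_mod_cast Finset.card_filter_le _ _
          linarith
  have hTc := windows hA S hS
  rw [← hT] at hTc
  have hcard : (S.card : ℝ) = ∑ k ∈ T, ((W k).card : ℝ) := by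
    have h0 := Finset.card_eq_sum_card_image (win z₀ r) S
    have h1 : S.card = ∑ k ∈ T, (W k).card := h0
    rw [h1]; push_cast; rfl
  have hsplit : (∑ k ∈ T, ((W k).card : ℝ)) =
      (∑ k ∈ T3, ((W k).card : ℝ)) + ∑ k ∈ T with ¬ 3 ≤ (W k).card, ((W k).card : ℝ) :=
    (Finset.sum_filter_add_sum_filter_not T (fun k => 3 ≤ (W k).card) _).symm
  have hsK : 1 ≤ Real.sqrt K := by
    rw [Real.one_le_sqrt]; exact hA.K1
  have hL1 : 1 ≤ (1 + Real.log r) ^ 2 := one_le_pow₀ (by linarith)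
  set L : ℝ := (1 + Real.log r) ^ 2 with hL
  set X : ℝ := l * Real.sqrt K / r ^ (2 / 3 : ℝ) with hX
  set Y : ℝ := l / r ^ (1 / 3 : ℝ) with hY
  have hX0 : 0 ≤ X := by positivity
  have hY0 : 0 ≤ Y := by positivity
  have e1 : (S.card : ℝ) ≤ L * Q + 2 * (2 + 4 * Y) := by
    rw [hcard, hsplit]; linarith
  have e2 : 2 * (2 + 4 * Y) ≤ L * (4 * Real.sqrt K + 8 * Y) := by
    have : 2 * (2 + 4 * Y) ≤ 1 * (4 * Real.sqrt K + 8 * Y) := by linarith
    exact le_trans this (mul_le_mul_of_nonneg_right hL1 (by positivity))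
  have e3 : L * Q + L * (4 * Real.sqrt K + 8 * Y) ≤ L * (1000 * (Real.sqrt K + Y + X)) := by
    rw [← mul_add]
    apply mul_le_mul_of_nonneg_left _ (by linarith)
    rw [hQ]; linarith
  calc (S.card : ℝ) ≤ L * (1000 * (Real.sqrt K + Y + X)) := by linarith
    _ = 1000 * L * (Real.sqrt K + Y + X) := by ring

end Pool.Agent.H79.QN
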